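import Pool.Agent.Y917.BS.Fin

set_option autoImplicit false

/-!
# Multi-point Seshadri constants of all divisors on surfaces (Biran–Szemberg)

Let `X` be a smooth (or only normal) projective surface over `ℂ` and `L` any divisor on `X`.  Write
`L = A - B` with `A, B` very ample; then `X ⊂ P^a × P^b` with `A = O(1, 0)|_X`, `B = O(0, 1)|_X`.

The moving Seshadri constant `ε(‖L‖; x_1, …, x_n)` is the limit of `s(m) / m`, where the sections of
`m L` separate the jets of order `s(m)` at the points `x_i`; it is the Seshadri constant if `L` is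
nef.  We prove: there is `n₀` such that for all `n ≥ n₀` and very general points it is equal to
`√(vol(L) / n)`, and `L · C ≥ √(vol(L) / n) ∑ mult_{x_i} C` for the curves `C` through at least one of
the points if `vol(L) > 0`; if `L` is nef, `vol(L) = L²` and the Seshadri constant of `L` at these
points is `√(L² / n)`.
-/

namespace Pool.Agent.Results.MP_ed661f_ag.BigDivisors

open MvPolynomial Filter Topology

/-- The index set of the variables `x_0, …, x_a, y_0, …, y_b`. -/
abbrev Index (a b : ℕ) : Type := Fin (a + 1) ⊕ Fin (b + 1)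

/-- The bihomogeneous coordinate ring `ℂ[x_0, …, x_a, y_0, …, y_b]` of `P^a × P^b`. -/
abbrev Coord (a b : ℕ) : Type := MvPolynomial (Index a b) ℂ

/-- The variable `x_i`, of bidegree `(1, 0)`. -/
noncomputable abbrev xVar {a b : ℕ} (i : Fin (a + 1)) : Coord a b := X (Sum.inl i)

/-- The variable `y_j`, of bidegree `(0, 1)`. -/
noncomputable abbrev yVar {a b : ℕ} (j : Fin (b + 1)) : Coord a b := X (Sum.inr j)

/-- The bidegrees of the variables. -/
def bidegree (a b : ℕ) : Index a b → ℕ × ℕ := Sum.elim (fun _ => (1, 0)) (fun _ => (0, 1))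

/-- The vector space of the forms of bidegree `(u, v)`. -/
noncomputable def forms (a b u v : ℕ) : Submodule ℂ (Coord a b) :=
  weightedHomogeneousSubmodule ℂ (bidegree a b) (u, v)

variable {a b : ℕ}

/-- `P` is bihomogeneous: it contains the bihomogeneous components of its elements. -/
def IsBihomogeneous (P : Ideal (Coord a b)) : Prop :=
  ∀ f ∈ P, ∀ d : ℕ × ℕ, weightedHomogeneousComponent (bidegree a b) d f ∈ P

/-- The projection `ℂ[x, y] → ℂ[x, y]/P`. -/
noncomputable def projection (P : Ideal (Coord a b)) : Coord a b →ₗ[ℂ] Coord a b ⧸ P :=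
  (Ideal.Quotient.mkₐ ℂ P).toLinearMap

/-- The part of bidegree `(u, v)` of `ℂ[x, y]/P`. -/
noncomputable def piece (P : Ideal (Coord a b)) (u v : ℕ) : Submodule ℂ (Coord a b ⧸ P) :=
  (forms a b u v).map (projection P)

/-- The Hilbert function of `P`: the dimension of the part of bidegree `(u, v)` of
`ℂ[x, y]/P`. -/
noncomputable def hilbertFunction (P : Ideal (Coord a b)) (u v : ℕ) : ℕ :=
  Module.finrank ℂ (piece P u v)

/-- `P` is the bihomogeneous prime ideal of an integral surface `X ⊂ P^a × P^b` with `A² = α`,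
`A · B = β`, `B² = γ`, where `A = O(1, 0)|_X` and `B = O(0, 1)|_X`: by Riemann–Roch, for large
`u, v`, the Hilbert function is `(u A + v B)² / 2` up to terms of lower order, and this is required
along all rays `(p t, q t)`.  (As `A + B` is ample, `A² + 2 A · B + B² > 0`.) -/
structure IsSurface (P : Ideal (Coord a b)) (α β γ : ℕ) : Prop where
  prime : P.IsPrime
  bihomogeneous : IsBihomogeneous P
  growth : ∀ p q : ℕ, 1 ≤ p → 1 ≤ q → Tendsto
    (fun t : ℕ => 2 * (hilbertFunction P (p * t) (q * t) : ℝ) / (t : ℝ) ^ 2) atTop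
    (𝓝 ((α : ℝ) * p ^ 2 + 2 * β * p * q + γ * q ^ 2))
  pos : 0 < α + 2 * β + γ

/-- `Q` is the bihomogeneous prime ideal of an integral curve `C ⊂ P^a × P^b` with `A · C = dA`
and `B · C = dB`: for large `u, v` the Hilbert function is `(u A + v B) · C` up to a constant. -/
structure IsCurve (Q : Ideal (Coord a b)) (dA dB : ℝ) : Prop where
  prime : Q.IsPrime
  bihomogeneous : IsBihomogeneous Q
  growth : ∀ p q : ℕ, 1 ≤ p → 1 ≤ q → Tendsto
    (fun t : ℕ => (hilbertFunction Q (p * t) (q * t) : ℝ) / (t : ℝ)) atTop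
    (𝓝 (dA * p + dB * q))
  pos : 0 < dA + dB

/-- `L = A - B` is nef on `X`: `L · C = A · C - B · C ≥ 0` for all integral curves `C ⊂ X`. -/
def IsNef (P : Ideal (Coord a b)) : Prop :=
  ∀ (Q : Ideal (Coord a b)) (dA dB : ℝ), P ≤ Q → IsCurve Q dA dB → dB ≤ dA

/-- The ideal of the affine chart `x_i = 1`, `y_j = 1` of the scheme of `P`. -/
noncomputable def chartIdeal (i : Fin (a + 1)) (j : Fin (b + 1)) (P : Ideal (Coord a b)) :
    Ideal (Coord a b) :=
  P ⊔ Ideal.span {xVar i - 1, yVar j - 1}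

/-- `X` is normal: the coordinate rings of its affine charts are integrally closed.  (Every smooth
surface is normal.) -/
def IsNormal (P : Ideal (Coord a b)) : Prop :=
  ∀ i j, xVar i ∉ P → yVar j ∉ P → IsIntegrallyClosed (Coord a b ⧸ chartIdeal i j P)

/-- The maximal ideal of the point `w`. -/
noncomputable def pointIdeal (w : Index a b → ℂ) : Ideal (Coord a b) :=
  Ideal.span (Set.range fun t => X t - C (w t))

/-- The length `dim(O_w / 𝔪_w^K)` of the local ring at `w` of the scheme of `Q`. -/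
noncomputable def localLength (i : Fin (a + 1)) (j : Fin (b + 1)) (Q : Ideal (Coord a b))
    (w : Index a b → ℂ) (K : ℕ) : ℕ :=
  Module.finrank ℂ (Coord a b ⧸ (chartIdeal i j Q ⊔ pointIdeal w ^ K))

/-- `m` is the multiplicity at the point `w` (normalised by `x_i = 1`, `y_j = 1`) of the curve with
ideal `Q`: the Hilbert–Samuel multiplicity `lim dim(O_w / 𝔪_w^K) / K` of its local ring at `w`
(it is `0` when `w` is not on the curve). -/
def IsMultiplicity (i : Fin (a + 1)) (j : Fin (b + 1)) (Q : Ideal (Coord a b))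
    (w : Index a b → ℂ) (m : ℝ) : Prop :=
  Tendsto (fun K : ℕ => (localLength i j Q w K : ℝ) / K) atTop (𝓝 m)

/-- `w` lists `n` points of the chart `x_i = 1`, `y_j = 1` of `X`. -/
def IsChartTuple {n : ℕ} (i : Fin (a + 1)) (j : Fin (b + 1)) (P : Ideal (Coord a b))
    (w : Fin n → Index a b → ℂ) : Prop :=
  ∀ q, w q (Sum.inl i) = 1 ∧ w q (Sum.inr j) = 1 ∧ ∀ F ∈ P, eval (w q) F = 0

/-- The value of a polynomial on `n`-tuples of points. -/
noncomputable def tupleValue {n : ℕ} (H : MvPolynomial (Fin n × Index a b) ℂ)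
    (w : Fin n → Index a b → ℂ) : ℂ := eval (fun p => w p.1 p.2) H

/-- The `n`-tuple `w` of points of the chart of `X` lies outside the countably many closed subsets
`H k = 0`. -/
def IsVeryGeneral {n : ℕ} (i : Fin (a + 1)) (j : Fin (b + 1)) (P : Ideal (Coord a b))
    (H : ℕ → MvPolynomial (Fin n × Index a b) ℂ) (w : Fin n → Index a b → ℂ) : Prop :=
  IsChartTuple i j P w ∧ ∀ k, tupleValue (H k) w ≠ 0

/-- The ratios `L · C / ∑ mult_{w_q} C`, where `L = A - B`, over the integral curves `C ⊂ X` through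
at least one of the points `w q`.  The Seshadri constant `ε(X, L; w)` is the infimum of this
set. -/
def seshadriRatios {n : ℕ} (i : Fin (a + 1)) (j : Fin (b + 1))
    (P : Ideal (Coord a b)) (w : Fin n → Index a b → ℂ) : Set ℝ :=
  {x | ∃ (Q : Ideal (Coord a b)) (dA dB : ℝ) (m : Fin n → ℝ), P ≤ Q ∧ IsCurve Q dA dB ∧
    (∀ q, IsMultiplicity i j Q (w q) (m q)) ∧ 0 < ∑ q, m q ∧ x = (dA - dB) / ∑ q, m q}

/-- The function `F` on the chart `x_i = y_j = 1` of `X` is a section of `m L = m A - m B`: for some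
`c` its products with the forms of bidegree `(c, c + m)` are forms of bidegree `(c + m, c)` (on the
normal surface `X` these are all the sections of the line bundle `m L`, trivialised by `x_i^m` and
`y_j^m`). -/
def IsSection (i : Fin (a + 1)) (j : Fin (b + 1)) (P : Ideal (Coord a b)) (m : ℕ)
    (F : Coord a b) : Prop :=
  ∃ c : ℕ, ∀ g ∈ forms a b c (c + m), ∃ f ∈ forms a b (c + m) c, F * g - f ∈ chartIdeal i j P

/-- The vector space `H⁰(X, m L)`, as a space of functions on the chart. -/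
noncomputable def sections (i : Fin (a + 1)) (j : Fin (b + 1)) (P : Ideal (Coord a b)) (m : ℕ) :
    Submodule ℂ (Coord a b ⧸ chartIdeal i j P) :=
  Submodule.span ℂ {z | ∃ F, IsSection i j P m F ∧ Ideal.Quotient.mk (chartIdeal i j P) F = z}

/-- The volume of `L` is `δ = lim 2 h⁰(X, m L) / m²` (the limit always exists; it is computed in any
of the charts). -/
def HasVolume (P : Ideal (Coord a b)) (δ : ℝ) : Prop :=
  ∀ i j, xVar i ∉ P → yVar j ∉ P →
    Tendsto (fun m : ℕ => 2 * (Module.finrank ℂ (sections i j P m) : ℝ) / (m : ℝ) ^ 2) atTop (𝓝 δ)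

/-- The sections of `m L` separate the jets of order less than `s` at the points `w q`: the map
`H⁰(X, m L) → ⊕_q O_{w_q} / 𝔪_{w_q}^s` is surjective. -/
def SeparateJets (i : Fin (a + 1)) (j : Fin (b + 1)) (P : Ideal (Coord a b)) (m s : ℕ) {n : ℕ}
    (w : Fin n → Index a b → ℂ) : Prop :=
  ∀ q (f : Coord a b), ∃ F, IsSection i j P m F ∧ F - f ∈ chartIdeal i j P ⊔ pointIdeal (w q) ^ s ∧
    ∀ q', q' ≠ q → F ∈ chartIdeal i j P ⊔ pointIdeal (w q') ^ s

/-- The moving Seshadri constant of `L` at the points `w q` is `c`: the largest `s = s(m)` such that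
the sections of `m L` separate the jets of order less than `s` at the points satisfies
`s(m) / m → c`. -/
def IsMovingSeshadri (i : Fin (a + 1)) (j : Fin (b + 1)) (P : Ideal (Coord a b)) {n : ℕ}
    (w : Fin n → Index a b → ℂ) (c : ℝ) : Prop :=
  ∀ ε : ℝ, 0 < ε → ∃ m₁ : ℕ, ∀ m, m₁ ≤ m →
    (∃ s : ℕ, (c - ε) * m ≤ s ∧ SeparateJets i j P m s w) ∧
    ∀ s : ℕ, SeparateJets i j P m s w → (s : ℝ) ≤ (c + ε) * m

/-- **The Biran–Szemberg equality for all divisors on all normal projective surfaces.** Let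
`X ⊂ P^a × P^b` be an integral normal surface, `A = O(1, 0)|_X`, `B = O(0, 1)|_X` and `L = A - B`.

(1) Let `δ` be the volume of `L`; nothing else is assumed on `L`.  There is `n₀` such that for all
`n ≥ n₀` and every chart `x_i = y_j = 1` of `X`: for very general `n`-tuples of points of the chart
(outside countably many closed subsets given by polynomials `H_k`; such tuples exist) the points are
distinct and the moving Seshadri constant of `L` at them is `√(δ / n)`; if `δ > 0` (`L` is big), then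
`L · C ≥ √(δ / n) ∑ mult_{w_q} C` for all integral curves `C` through at least one of the points.

(2) If `L` is nef, then `L² = α - 2 β + γ ≥ 0` is the volume of `L`, and there is `n₀` such that for
all `n ≥ n₀`, every chart and very general points the Seshadri constant of `L` at the points, the
infimum of `L · C / ∑ mult_{w_q} C` over the integral curves `C` through at least one of them, is
`√(L² / n)`, and so is the moving Seshadri constant. -/
theorem result {a b : ℕ} (P : Ideal (Coord a b)) (α β γ : ℕ) (hX : IsSurface P α β γ)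
    (hnormal : IsNormal P) :
    (∀ δ : ℝ, HasVolume P δ → ∃ n₀ : ℕ, ∀ n, n₀ ≤ n → ∀ i j, xVar i ∉ P → yVar j ∉ P →
      ∃ H : ℕ → MvPolynomial (Fin n × Index a b) ℂ,
        (∃ w, IsVeryGeneral i j P H w) ∧
        ∀ w, IsVeryGeneral i j P H w → Function.Injective w ∧
          IsMovingSeshadri i j P w (√(δ / n)) ∧
          (0 < δ → ∀ x ∈ seshadriRatios i j P w, √(δ / n) ≤ x)) ∧
    (IsNef P → 2 * β ≤ α + γ ∧ (∃ i j, xVar i ∉ P ∧ yVar j ∉ P) ∧
      (∀ δ : ℝ, HasVolume P δ → δ = (α : ℝ) - 2 * β + γ) ∧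
      ∃ n₀ : ℕ, ∀ n, n₀ ≤ n → ∀ i j, xVar i ∉ P → yVar j ∉ P →
      ∃ H : ℕ → MvPolynomial (Fin n × Index a b) ℂ,
        (∃ w, IsVeryGeneral i j P H w) ∧
        ∀ w, IsVeryGeneral i j P H w → Function.Injective w ∧
          IsMovingSeshadri i j P w (√(((α : ℝ) - 2 * β + γ) / n)) ∧
          IsGLB (seshadriRatios i j P w) (√(((α : ℝ) - 2 * β + γ) / n))) := by
  have hX' : Pool.Agent.TH279.GR.Surf P α β γ :=
    ⟨hX.prime, hX.bihomogeneous, hX.growth, by exact_mod_cast hX.pos⟩
  have hcurve : ∀ (Q : Ideal (Coord a b)) (dA dB : ℝ), Pool.Agent.TH279.GR.Curv Q dA dB ↔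
      IsCurve Q dA dB := fun Q dA dB =>
    ⟨fun h => ⟨h.prime, h.hom, h.growth, h.pos⟩,
      fun h => ⟨h.prime, h.bihomogeneous, h.growth, h.pos⟩⟩
  refine ⟨fun δ hV => ?_, fun hnef => ?_⟩
  · have hδ := Pool.Agent.Y917.BS.vol_nonneg hX' hV
    obtain ⟨n₀, h2⟩ := Pool.Agent.Y917.BS.all_divisors P α β γ hX' hnormal δ hV hδ
    refine ⟨n₀, fun n hn i j hi hj => ?_⟩
    obtain ⟨H, h3, h4⟩ := h2 n hn i j hi hj
    refine ⟨H, h3, fun w hw => ?_⟩
    obtain ⟨h5, h6, h7⟩ := h4 w hw
    refine ⟨h5, h6, fun h0 => ?_⟩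
    rintro x ⟨Q, dA, dB, m, hPQ, hQ, hm, hpos, rfl⟩
    rw [le_div_iff₀ hpos]
    exact h7 h0 Q dA dB m hPQ ((hcurve Q dA dB).2 hQ) hm hpos
  · have hnef' : Pool.Agent.TH279.GR.Nef P := fun Q dA dB hPQ hQ =>
      hnef Q dA dB hPQ ((hcurve Q dA dB).1 hQ)
    obtain ⟨h0, h1, n₀, h2⟩ := Pool.Agent.Y917.BS.nef_divisors P α β γ hX' hnormal hnef'
    refine ⟨h0, h1, fun δ hV => Pool.Agent.Y917.BS.vol_nef P α β γ hX' hnormal hnef' δ hV
      (Pool.Agent.Y917.BS.vol_nonneg hX' hV), n₀, fun n hn i j hi hj => ?_⟩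
    obtain ⟨H, h3, h4⟩ := h2 n hn i j hi hj
    refine ⟨H, h3, fun w hw => ?_⟩
    obtain ⟨h5, h6, h7⟩ := h4 w hw
    refine ⟨h5, h6, ?_⟩
    have hset : seshadriRatios i j P w = Pool.Agent.TH306.N4.ratios i j P w := by
      ext x
      constructor
      · rintro ⟨Q, dA, dB, m, hPQ, hQ, hm, h0, h⟩
        exact ⟨Q, dA, dB, m, hPQ, (hcurve Q dA dB).2 hQ, hm, h0, h⟩
      · rintro ⟨Q, dA, dB, m, hPQ, hQ, hm, h0, h⟩
        exact ⟨Q, dA, dB, m, hPQ, (hcurve Q dA dB).1 hQ, hm, h0, h⟩
    rw [hset]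
    exact h7

end Pool.Agent.Results.MP_ed661f_ag.BigDivisors
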